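import Mathlib
import Pool.Agent.Helper61.SS.Extra

/-!
# Project GT (MP_552bae_an): bounded bilinear forms on two C*-algebras, goals with proofs

The aim: for C*-algebras `A`, `B` an element of `A ⊗^ B` which is killed by all products of functionals is
zero; so `A ⊗^ B` is semisimple.  (Noncommutative Grothendieck inequality, qualitative, elementary proof.)
`h` hermitian means `IsSelfAdjoint h`; a contraction is an element of norm `≤ 1`.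
-/

set_option autoImplicit false

namespace Pool.Agent.Helper61.GT

open TensorProduct Filter Topology Pool.Agent.Helper61.SS

universe u v w

/-- The form is bounded by one on pairs of unitaries. -/
def UB {A : Type u} {B : Type v} [CStarAlgebra A] [CStarAlgebra B] (Φ : A →L[ℂ] B →L[ℂ] ℂ) : Prop :=
  ∀ x ∈ unitary A, ∀ y ∈ unitary B, ‖Φ x y‖ ≤ 1

/-- signs -/
def sg (b : Bool) : ℝ := if b then 1 else -1

/-- signed sums -/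
noncomputable def X {A : Type u} [AddCommGroup A] [Module ℝ A] {n : ℕ} (x : Fin n → A)
    (e : Fin n → Bool) : A := ∑ i, sg (e i) • x i

/-- (SQ) `r = 1 - √(1 - t² y²)` (continuous functional calculus, the function `s ↦ 1 - √(1 - t² s²)` on the spectrum of `y`, which is contained in
`[-1, 1]`; or `CFC.sqrt`).  `0 ≤ 1 - √(1 - t² s²) ≤ t² s² ≤ 1`, as `√z ≥ z` for `0 ≤ z ≤ 1`; `r` commutes with `y` and `(1 - r)² + t² y² = 1`, so `1 - r + i t y` is unitary. -/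
def G_SQ : Prop := ∀ (A : Type u) [CStarAlgebra A] [PartialOrder A] [StarOrderedRing A] (y : A) (t : ℝ),
  IsSelfAdjoint y → ‖y‖ ≤ 1 → 0 ≤ t → t ≤ 1 → ∃ r : A, 0 ≤ r ∧ r ≤ 1 ∧ r ≤ (t ^ 2) • (y * y) ∧
    ‖r‖ ≤ t ^ 2 ∧ (1 - r) + (Complex.I * t) • y ∈ unitary A

/-- (AVG), from SQ.  If `x` is a hermitian contraction then `w = (1 - r) + i x` (SQ with `t = 1`) is unitary, so is `w*`, and `x = (w - w*) / (2 i)`.  So in each variable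
a hermitian contraction is a combination of two unitaries with coefficients of modulus 1/2. -/
def G_AVG : Prop := G_SQ.{u} → G_SQ.{v} → ∀ (A : Type u) (B : Type v) [CStarAlgebra A] [CStarAlgebra B]
  (Φ : A →L[ℂ] B →L[ℂ] ℂ), UB Φ → ∀ (x : A) (y : B), (IsSelfAdjoint x ∧ ‖x‖ ≤ 1 ∨ x ∈ unitary A) →
  (IsSelfAdjoint y ∧ ‖y‖ ≤ 1 ∨ y ∈ unitary B) → ‖Φ x y‖ ≤ 1

/-- (F0), from AVG, SQ.  Put `f x = Φ x 1`.  Let `x` be a hermitian contraction (scaling), `t ∈ (0, 1]`, `r` from SQ.  `|f (1 - r + i t x)| ≤ 1`, the real part is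
`1 - Re f r - t Im f x ≤ 1`, `|f r| ≤ t²` (`r = t² r'`, `r'` a hermitian contraction), so `- Im f x ≤ t`; let `t → 0`: `Im f x ≥ 0`; the same for `-x`: `Im f x = 0`.
If `0 ≤ x ≤ 1` then `1 - x` is a hermitian contraction, `|1 - f x| ≤ 1` and so `f x ≥ 0`. -/
def G_F0 : Prop := G_SQ.{u} → G_AVG.{u, v} → G_SQ.{v} → ∀ (A : Type u) (B : Type v) [CStarAlgebra A] [PartialOrder A]
  [StarOrderedRing A] [CStarAlgebra B] (Φ : A →L[ℂ] B →L[ℂ] ℂ), UB Φ → Φ 1 1 = 1 → ∀ x : A,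
  IsSelfAdjoint x → (Φ x 1).im = 0 ∧ (0 ≤ x → 0 ≤ (Φ x 1).re)

/-- (RT), from SQ, AVG, F0.  `f x = Φ x 1`, `g y = Φ 1 y` are real on hermitian elements and positive (F0, and F0 for `Φ.flip`).  Let `t ∈ (0, 1]`, and `r` for `y`, `t` from SQ:
`v = 1 - r + i t y` unitary, `0 ≤ r`, `‖r‖ ≤ t²`.

(a) `1 - p` is a hermitian contraction; the real part of `Φ (1 - p) v` is `≤ 1`: `1 - g r - f p + Re Φ(p, r) + t Im Φ(p, y) ≤ 1`.  So `t Im Φ(p, y) ≤ f p + 2 t²`.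
With `t = √(f p)` (`f p ≤ 1`; if `f p = 0` let `t → 0`): `Im Φ(p, y) ≤ 3 √(f p)`, and by `y → -y`: `|Im Φ(p, y)| ≤ 3 √(f p)`, for all `0 ≤ p ≤ 1`.

(b) SQ for `p` with `t = 1`: `0 ≤ q ≤ p² ≤ p`, `u = 1 - q + i p` unitary.  The real part of `Φ(u, v)` is `≤ 1`; it is
`1 - f q - g r + Re Φ(q, r) + t Im Φ(q, y) + Im Φ(p, r) - t Re Φ(p, y)`.  As `f q ≤ f p`, `g r ≤ t²`, `|Φ(q, r)| ≤ t²`, `|Φ(p, r)| ≤ t²`, `|Im Φ(q, y)| ≤ 3 √(f q) ≤ 3 √(f p)` (by (a)):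
`- t Re Φ(p, y) ≤ f p + 3 t² + 3 t √(f p)`, and `t = √(f p)` gives `- Re Φ(p, y) ≤ 7 √(f p)`; by `y → -y`: `|Re Φ(p, y)| ≤ 7 √(f p)`. -/
def G_RT : Prop := G_SQ.{u} → G_SQ.{v} → G_AVG.{u, v} → G_F0.{u, v} → G_F0.{v, u} → ∀ (A : Type u) (B : Type v) [CStarAlgebra A]
  [PartialOrder A] [StarOrderedRing A] [CStarAlgebra B] (Φ : A →L[ℂ] B →L[ℂ] ℂ), UB Φ → Φ 1 1 = 1 →
  ∀ (p : A) (y : B), 0 ≤ p → p ≤ 1 → IsSelfAdjoint y → ‖y‖ ≤ 1 → ‖Φ p y‖ ≤ 10 * √(Φ p 1).re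

/-- (DEC) functional calculus with `x'(s) = max (-c) (min s c)`, `p(s) = max 0 (min ((s - c)/c) 1)`, `q(s) = max 0 (min ((-s - c)/c) 1)` on the spectrum, which is contained
in `[-2c, 2c]` (`cfc_mono`, `cfc_le_iff` or similar): `s = x'(s) + c (p(s) - q(s))`, `x'(s)^4 ≤ s^4`, `c^4 p(s) ≤ s^4` (`p(s) = 0` for `s ≤ c`, `p(s) ≤ 1 ≤ (s/c)^4` for `s ≥ c`). -/
def G_DEC : Prop := ∀ (A : Type u) [CStarAlgebra A] [PartialOrder A] [StarOrderedRing A] (x : A) (c : ℝ),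
  IsSelfAdjoint x → 0 < c → ‖x‖ ≤ 2 * c → ∃ x' p q : A, IsSelfAdjoint x' ∧ ‖x'‖ ≤ c ∧ x' ^ 4 ≤ x ^ 4 ∧
    0 ≤ p ∧ p ≤ 1 ∧ 0 ≤ q ∧ q ≤ 1 ∧ (c ^ 4) • p ≤ x ^ 4 ∧ (c ^ 4) • q ≤ x ^ 4 ∧ x = x' + c • (p - q)

/-- (L4), from RT, DEC, F0, AVG.  Let `f x = Φ x 1`.  By induction on `m`: if `‖x‖ ≤ 2^m` then `‖Φ x y‖ ≤ 1 + 20 ∑_{k < m} 2^(-k) √(f (x^4))`.  `m = 0`: AVG.  Step: DEC with `c = 2^m`:
`Φ x y = Φ x' y + c (Φ p y - Φ q y)`, `f (x'^4) ≤ f (x^4)`, `‖Φ p y‖ ≤ 10 √(f p) ≤ 10 √(f (x^4)) / c²`, the same for `q`. -/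
def G_L4 : Prop := G_DEC.{u} → (∀ (A : Type u) (B : Type v) [CStarAlgebra A]
  [PartialOrder A] [StarOrderedRing A] [CStarAlgebra B] (Φ : A →L[ℂ] B →L[ℂ] ℂ), UB Φ → Φ 1 1 = 1 →
  (∀ (x : A) (y : B), IsSelfAdjoint x → ‖x‖ ≤ 1 → IsSelfAdjoint y → ‖y‖ ≤ 1 → ‖Φ x y‖ ≤ 1) →
  (∀ x : A, IsSelfAdjoint x → (Φ x 1).im = 0 ∧ (0 ≤ x → 0 ≤ (Φ x 1).re)) →
  (∀ (p : A) (y : B), 0 ≤ p → p ≤ 1 → IsSelfAdjoint y → ‖y‖ ≤ 1 → ‖Φ p y‖ ≤ 10 * √(Φ p 1).re) →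
  ∀ (x : A) (y : B), IsSelfAdjoint x → IsSelfAdjoint y → ‖y‖ ≤ 1 →
    ‖Φ x y‖ ≤ 1 + 40 * √(Φ (x ^ 4) 1).re)

/-- (M4) the fourth moment.  By induction on `n` (`Fin.consEquiv`/`Fin.cons_sum`, or over lists; `E` is the mean over the signs, `S = ∑ x_j²`, `x` the new element, `X'` the old signed
sum, `S'` the old `S`): the mean over the sign of `x` of `(X' ± x)^4` is `X'^4 + x^4 + X'²x² + x²X'² + X'xX'x + xX'xX' + X'x²X' + xX'²x`; `a² + a*² ≤ a a* + a* a` for `a = X'x` (as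
`0 ≤ (a - a*)(a - a*)*`) gives `X'xX'x + xX'xX' ≤ X'x²X' + xX'²x`; `E X'² = S'`, `E X' x² X' = ∑' x_j x² x_j`.  So
`E X^4 ≤ E X'^4 + x^4 + S'x² + x²S' + 2 ∑' x_j x² x_j + 2 x S' x ≤ S² + 2 ∑ x_j S x_j`, since
`S² = S'² + S'x² + x²S' + x^4` and `∑ x_j S x_j = ∑' x_j S' x_j + ∑' x_j x² x_j + x S' x + x^4`. -/
def G_M4 : Prop := ∀ (A : Type u) [CStarAlgebra A] [PartialOrder A] [StarOrderedRing A] (n : ℕ)
  (x : Fin n → A), (∀ i, IsSelfAdjoint (x i)) → ∑ e : Fin n → Bool, (X x e) ^ 4 ≤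
    (2 ^ n : ℝ) • ((∑ i, x i * x i) * (∑ i, x i * x i) + (2 : ℝ) • ∑ i, x i * (∑ j, x j * x j) * x i)

/-- (BES) Bessel: `0 ≤ E (Z - ∑ ε_j z_j)² = E Z² - ∑ z_j²`. -/
def G_BES : Prop := ∀ (A : Type u) [CStarAlgebra A] [PartialOrder A] [StarOrderedRing A] (n : ℕ)
  (Z : (Fin n → Bool) → A) (z : Fin n → A), (∀ e, IsSelfAdjoint (Z e)) →
  (∀ j, (2 ^ n : ℝ) • z j = ∑ e, sg (e j) • Z e) →
  (2 ^ n : ℝ) • ∑ j, z j * z j ≤ ∑ e, Z e * Z e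

/-- (TRU) functional calculus, `k(s) = max (-1) (min s 1)`, `l(s) = s - k(s)`, `|l(s)| = (|s| - 1)₊ ≤ s² / 4`. -/
def G_TRU : Prop := ∀ (A : Type u) [CStarAlgebra A] [PartialOrder A] [StarOrderedRing A] (y : A),
  IsSelfAdjoint y → ∃ k l : A, IsSelfAdjoint k ∧ IsSelfAdjoint l ∧ y = k + l ∧ ‖k‖ ≤ 1 ∧
    l * l ≤ (1 / 16 : ℝ) • y ^ 4

/-- (KN), from M4, BES, TRU.  Say `C` is valid if the conclusion holds with `C` (for this `n`).  `C = n ‖Φ‖` is valid (or any crude bound; `‖x_i‖ ≤ 1` as `x_i² ≤ 1`).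
CLAIM: if `C ≥ 0` is valid then `71 + C / 2` is valid; so (iterate, the limit is 142) `142` is valid.
Let `E` be the mean over the signs `e`, `X = X x e`, `Y = X y e`; `∑ Φ x_j y_j = E Φ X Y`.  `Y = k_e + l_e` (TRU).  `‖E Φ X k_e‖ ≤ E (1 + 40 √(f (X^4))) ≤ 1 + 40 √(E f (X^4)) ≤ 1 + 40 √3 ≤ 71` (hypothesis `hL4`;
`f = Re Φ(·, 1)` is monotone on hermitian elements; by M4 `E X^4 ≤ S² + 2 ∑ x_j S x_j ≤ 3`, as `S ≤ 1`, `S² ≤ S`, `x_j S x_j ≤ x_j²`).  `E Φ X l_e = ∑ Φ x_j z_j`, `z_j = E ε_j l_e`, and by BES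
`∑ z_j² ≤ E l_e² ≤ E Y^4 / 16 ≤ 3/16`; so `2 z_j` is allowed and `‖E Φ X l_e‖ ≤ C / 2`. -/
def G_KN : Prop := G_M4.{u} → G_M4.{v} → G_BES.{v} → G_TRU.{v} → (∀ (A : Type u) (B : Type v) [CStarAlgebra A]
  [PartialOrder A] [StarOrderedRing A] [CStarAlgebra B] [PartialOrder B] [StarOrderedRing B]
  (Φ : A →L[ℂ] B →L[ℂ] ℂ), Φ 1 1 = 1 →
  (∀ x : A, 0 ≤ x → 0 ≤ (Φ x 1).re) →
  (∀ (x : A) (y : B), IsSelfAdjoint x → IsSelfAdjoint y → ‖y‖ ≤ 1 →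
    ‖Φ x y‖ ≤ 1 + 40 * √(Φ (x ^ 4) 1).re) →
  ∀ (n : ℕ) (x : Fin n → A) (y : Fin n → B), (∀ i, IsSelfAdjoint (x i)) → (∀ i, IsSelfAdjoint (y i)) →
    ∑ i, x i * x i ≤ 1 → ∑ i, y i * y i ≤ 1 → ‖∑ i, Φ (x i) (y i)‖ ≤ 142)

/-- (ATT), from KN-type bound `hK` for forms with `Φ 1 1 = 1`.

(a) If `Φ 1 1 = 1`: for hermitian `x_i` and hermitian contractions `y_i`: `∑ ‖Φ x_i y_i‖² ≤ 2 · 142² ‖∑ x_i²‖`.  Scale so that `‖∑ x_i²‖ ≤ 1` (if it is zero all `x_i = 0`); for real `α_i` with `∑ α_i² ≤ 1` we have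
`∑ (α_i y_i)² ≤ 1`, so `|∑ α_i Re Φ x_i y_i| ≤ 142`; take `α_i = Re Φ x_i y_i / √(∑ (Re Φ x_j y_j)²)`; the same for the imaginary parts.

(b) In general `Φ' x y = Φ (u x) (v y)` has `UB Φ'`, `Φ' 1 1 = 1`, and `Φ x_i y_i = Φ' (u* x_i) (v* y_i)`; `u* x_i = h_i + i k_i`, `v* y_i = m_i + i n_i` (hermitian; `m_i`, `n_i` contractions),
`‖Φ x_i y_i‖² ≤ 4 (|Φ' h m|² + |Φ' k n|² + |Φ' h n|² + |Φ' k m|²)`, and `‖∑ h_i²‖, ‖∑ k_i²‖ ≤ ‖∑ (h_i² + k_i²)‖ = ‖∑ (z_i* z_i + z_i z_i*)‖ / 2 ≤ ‖∑ x_i²‖` (`z_i = u* x_i`, `∑ z_i z_i* = u* (∑ x_i²) u`).  So the sum is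
`≤ 4 · 4 · 2 · 142² ‖∑ x_i²‖`. -/
def G_ATT : Prop := (∀ (A : Type u) (B : Type v) [CStarAlgebra A] [PartialOrder A] [StarOrderedRing A] [CStarAlgebra B]
    [PartialOrder B] [StarOrderedRing B] (Φ : A →L[ℂ] B →L[ℂ] ℂ), UB Φ → Φ 1 1 = 1 →
    ∀ (n : ℕ) (x : Fin n → A) (y : Fin n → B), (∀ i, IsSelfAdjoint (x i)) → (∀ i, IsSelfAdjoint (y i)) →
    ∑ i, x i * x i ≤ 1 → ∑ i, y i * y i ≤ 1 → ‖∑ i, Φ (x i) (y i)‖ ≤ 142) →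
  ∀ (A : Type u) (B : Type v) [CStarAlgebra A] [CStarAlgebra B] (Φ : A →L[ℂ] B →L[ℂ] ℂ), UB Φ →
  ∀ a ∈ unitary A, ∀ b ∈ unitary B, Φ a b = 1 →
  ∀ (n : ℕ) (x : Fin n → A) (y : Fin n → B), (∀ i, IsSelfAdjoint (x i)) → (∀ i, ‖y i‖ ≤ 1) →
    ∑ i, ‖Φ (x i) (y i)‖ ^ 2 ≤ 32 * 142 ^ 2 * ‖∑ i, x i * x i‖

/-- (ULT), from ATT (hypothesis `hA`, for all algebras in the two universes).  If `φ` is zero on all pairs of unitaries it is zero (hermitian contractions are combinations of unitaries, G_SQ with `t = 1`: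
`x = (w - w*) / (2i)`).  Otherwise `M = sup |φ u v|` over unitary pairs is in `(0, ‖φ‖]`; divide by `M`: `UB φ` and there are unitaries `u_n`, `v_n` with `φ u_n v_n → 1` (multiply `v_n` by a phase).
Let `𝔸 = ℕ →ᵇ A`, `𝔹 = ℕ →ᵇ B` (bounded continuous functions on the discrete space `ℕ`; C*-algebras by `Mathlib/Analysis/CStarAlgebra/ContinuousMap.lean`), and `Φ x y = lim φ (x_n) (y_n)` along a
nonprincipal ultrafilter (`Filter.hyperfilter ℕ`; bounded sequences converge, the limit is linear).  Unitaries of `𝔸` are sequences of unitaries, so `UB Φ`, and `Φ (u_n) (v_n) = 1`.  Apply ATT to constant sequences. -/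
def G_ULT : Prop := G_SQ.{u} → G_SQ.{v} → (∀ (A : Type u) (B : Type v) [CStarAlgebra A] [CStarAlgebra B] (Φ : A →L[ℂ] B →L[ℂ] ℂ), UB Φ →
    ∀ a ∈ unitary A, ∀ b ∈ unitary B, Φ a b = 1 →
    ∀ (n : ℕ) (x : Fin n → A) (y : Fin n → B), (∀ i, IsSelfAdjoint (x i)) → (∀ i, ‖y i‖ ≤ 1) →
      ∑ i, ‖Φ (x i) (y i)‖ ^ 2 ≤ 32 * 142 ^ 2 * ‖∑ i, x i * x i‖) →
  ∀ (A : Type u) (B : Type v) [CStarAlgebra A] [CStarAlgebra B] (φ : A →L[ℂ] B →L[ℂ] ℂ), ∃ K : ℝ,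
  ∀ (n : ℕ) (x : Fin n → A) (y : Fin n → B), (∀ i, IsSelfAdjoint (x i)) → (∀ i, ‖y i‖ ≤ 1) →
    ∑ i, ‖φ (x i) (y i)‖ ^ 2 ≤ K * ‖∑ i, x i * x i‖

/-- (NUN): the nonunital case, from the unital one (hypothesis): apply it to `Unitization ℂ A`, `Unitization ℂ B` (C*-algebras, `Mathlib/Analysis/CStarAlgebra/Unitization.lean`) and the form
`φ⁺ x y = φ x.snd y.snd` (bounded, `snd` is continuous), and to the elements `(x_i : A⁺)`, `(y_i : B⁺)`; the inclusion is isometric. -/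
def G_NUN : Prop := (∀ (A : Type u) (B : Type v) [CStarAlgebra A] [CStarAlgebra B] (φ : A →L[ℂ] B →L[ℂ] ℂ), ∃ K : ℝ,
    ∀ (n : ℕ) (x : Fin n → A) (y : Fin n → B), (∀ i, IsSelfAdjoint (x i)) → (∀ i, ‖y i‖ ≤ 1) →
      ∑ i, ‖φ (x i) (y i)‖ ^ 2 ≤ K * ‖∑ i, x i * x i‖) →
  ∀ (A : Type u) (B : Type v) [NonUnitalCStarAlgebra A] [NonUnitalCStarAlgebra B] (φ : A →L[ℂ] B →L[ℂ] ℂ),
  ∃ K : ℝ, ∀ (n : ℕ) (x : Fin n → A) (y : Fin n → B), (∀ i, IsSelfAdjoint (x i)) → (∀ i, ‖y i‖ ≤ 1) →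
    ∑ i, ‖φ (x i) (y i)‖ ^ 2 ≤ K * ‖∑ i, x i * x i‖

/-- (HB) Hahn-Banach (`exists_extension_of_le_sublinear`, `Mathlib/Analysis/Convex/Cone/Extension.lean`, with the zero subspace).  WLOG `K ≥ 0`.  For `h : A` let `N h` be the infimum of `K ‖h + ∑ x_i²‖ - ∑ ‖φ x_i y_i‖²` over all
finite families with `x_i` hermitian and `‖y_i‖ ≤ 1`.  It is `≥ - K ‖h‖` (`K ‖h + ∑ x_i²‖ ≥ K ‖∑ x_i²‖ - K ‖h‖` and the hypothesis), subadditive (join the families), `N (c h) = c N h` for `c > 0` (replace `x_i` by `√c x_i`), `N h ≤ K ‖h‖` (empty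
family) and `N (-x²) ≤ - ‖φ x y‖²` (family with one element).  A linear `g ≤ N` (real) does it: `- g (x²) = g (-x²) ≤ - ‖φ x y‖²`. -/
def G_HB : Prop := ∀ (A : Type u) (B : Type v) [NonUnitalCStarAlgebra A] [NormedAddCommGroup B] [NormedSpace ℂ B]
  (φ : A →L[ℂ] B →L[ℂ] ℂ) (K : ℝ), (∀ (n : ℕ) (x : Fin n → A) (y : Fin n → B), (∀ i, IsSelfAdjoint (x i)) →
    (∀ i, ‖y i‖ ≤ 1) → ∑ i, ‖φ (x i) (y i)‖ ^ 2 ≤ K * ‖∑ i, x i * x i‖) →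
  ∃ (g : A →ₗ[ℝ] ℝ) (K' : ℝ), (∀ h, g h ≤ K' * ‖h‖) ∧ ∀ (x : A) (y : B), IsSelfAdjoint x → ‖y‖ ≤ 1 →
    ‖φ x y‖ ^ 2 ≤ g (x * x)

/-- (GS) Gram-Schmidt.  Let `g' a = g (Re a) + i g (Im a)` (`a = Re a + i Im a`, hermitian parts), complex linear, bounded; `⟨a, b⟩ = g' (a* b + b a*)`, conjugate linear in `a`, linear in `b`, hermitian, `⟨a, a⟩ = g (a* a + a a*) = q a ≥ 0`
(`a* a + a a* = 2 ((Re a)² + (Im a)²)`).  For `w` with `q w > 0` let `P_w b = (⟨w, b⟩ / q w) • w`: `q (b - P_w b) = q b - |⟨w, b⟩|² / q w ≤ q b`, `P_w w = w`.  Induction on `F`: given `S` for `F` and a new `a`, let `w = a - S a`; if `q w = 0` keep `S`; otherwise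
`S' b = S b + P_w (b - S b)`, so `b - S' b = (1 - P_w) (b - S b)`. -/
def G_GS : Prop := ∀ (A : Type u) [NonUnitalCStarAlgebra A] (g : A →ₗ[ℝ] ℝ) (K : ℝ), (∀ h, g h ≤ K * ‖h‖) →
  (∀ x : A, IsSelfAdjoint x → 0 ≤ g (x * x)) → ∀ F : Finset A, ∃ S : A →L[ℂ] A,
  FiniteDimensional ℂ (LinearMap.range (S : A →ₗ[ℂ] A)) ∧
  (∀ b, g (star (b - S b) * (b - S b) + (b - S b) * star (b - S b)) ≤ g (star b * b + b * star b)) ∧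
  ∀ a ∈ F, g (star (a - S a) * (a - S a) + (a - S a) * star (a - S a)) = 0

/-- (VAN), from NUN-type bound, HB, GS, REP, EXT.  By Hahn-Banach it suffices that `L u = 0` for `L : C →L[ℂ] ℂ`; `φ a b = L (j a b)` is bounded (`‖j a b‖ ≤ ‖a‖ ‖b‖`).  Take `g` from HB, `q a = g (a* a + a a*)`, `q a ≤ 2 K' ‖a‖²`;
`‖φ a b‖² ≤ q a` for all `a` and `‖b‖ ≤ 1` (`a = x + i y`: `‖φ a b‖² ≤ 2 (‖φ x b‖² + ‖φ y b‖²) ≤ 2 g (x² + y²) = q a`).  REP: `u = ∑ a_n ⊗ b_n`, `a_n → 0`, `∑ ‖b_n‖ < ∞`.  Let `ε > 0`, `N₀` with `q a_n ≤ ε²` for `n ≥ N₀`, and `S` from GS for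
`F = {a_n : n < N₀}`; then `q (a_n - S a_n) ≤ ε²` for all `n`.  `S a = ∑ f_i a • w_i` with continuous functionals `f_i`, so `∑_n φ (S a_n) b_n = ∑_i ∑_n f_i(a_n) φ(w_i, b_n) = ∑_i F_i u = 0`, where `F_i (j a b) = f_i a * φ(w_i, b)` (EXT gives `F_i`; hypothesis on `u`).
So `|L u| = |∑ φ (a_n - S a_n) b_n| ≤ ε ∑ ‖b_n‖`.  (The proof of `Pool.Agent.Helper35.SS.gSLI` is similar.) -/
def G_VAN : Prop := (∀ (A : Type u) (B : Type v) [NonUnitalCStarAlgebra A] [NonUnitalCStarAlgebra B] (φ : A →L[ℂ] B →L[ℂ] ℂ),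
    ∃ K : ℝ, ∀ (n : ℕ) (x : Fin n → A) (y : Fin n → B), (∀ i, IsSelfAdjoint (x i)) → (∀ i, ‖y i‖ ≤ 1) →
      ∑ i, ‖φ (x i) (y i)‖ ^ 2 ≤ K * ‖∑ i, x i * x i‖) → G_HB.{u, v} → G_GS.{u} →
  ∀ (A : Type u) (B : Type v) (C : Type w) [NonUnitalCStarAlgebra A] [NonUnitalCStarAlgebra B]
  [NonUnitalNormedRing C] [NormedSpace ℂ C] [CompleteSpace C] (j : A →ₗ[ℂ] B →ₗ[ℂ] C), IsProj A B C j →
  ∀ u : C, (∀ (f : A →L[ℂ] ℂ) (g : B →L[ℂ] ℂ) (F : C →L[ℂ] ℂ), (∀ a b, F (j a b) = f a * g b) → F u = 0) →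
  u = 0

end Pool.Agent.Helper61.GT
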